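import Mathlib
import Pool.Agent.R859.FL.Fin

/-!
# Infinite log-convexity of `W n = V n ^ 2 - V (n-1) V (n+1)`, `n ≥ 2`

`V` is the Fennessey-Larcombe-French sequence.  The sequence `W` is infinitely log-convex.
-/

set_option autoImplicit false

namespace Pool.Agent.Results.MP_e3a7ef_co.InfinitelyLogConvex

noncomputable section

/-- the Fennessey-Larcombe-French sequence -/
def V : ℕ → ℝ
  | 0 => 1
  | 1 => 8
  | (k + 2) =>
    let n : ℝ := ((k + 2 : ℕ) : ℝ)
    8 * (3 * n ^ 2 - n - 1) / n ^ 2 * V (k + 1) - 128 * (n - 2) / (n - 1) * V k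

/-- `W n = V n ^ 2 - V (n-1) V (n+1)` (used for `n ≥ 2`) -/
def W (n : ℕ) : ℝ := V n ^ 2 - V (n - 1) * V (n + 1)

/-- the operator `L`; if `x` is regarded as a sequence indexed by `n ≥ m`, then `L x` is regarded
as a sequence indexed by `n ≥ m + 1` -/
def L (x : ℕ → ℝ) (n : ℕ) : ℝ := x (n - 1) * x (n + 1) - x n ^ 2

/-- the sequence `(x n)_{n ≥ m}` is `k`-log-convex: `x, L x, ..., L^k x` are nonnegative on their
index ranges -/
def KLogConvex (m : ℕ) (x : ℕ → ℝ) (k : ℕ) : Prop :=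
  ∀ j ≤ k, ∀ n, m + j ≤ n → 0 ≤ (L^[j] x) n

/-- the sequence `(x n)_{n ≥ m}` is infinitely log-convex -/
def InfinitelyLogConvexFrom (m : ℕ) (x : ℕ → ℝ) : Prop := ∀ k, 1 ≤ k → KLogConvex m x k

/-- The sequence `(W n)_{n ≥ 2}` is infinitely log-convex. -/
theorem result : InfinitelyLogConvexFrom 2 W := by
  have hV : ∀ n, V n = 8 ^ n * R859.FL.v n := by
    apply R859.FL.V_eq V
    · simp [V]
    · simp [V]
    · intro n hn
      obtain ⟨k, rfl⟩ : ∃ k, n = k + 2 := ⟨n - 2, by omega⟩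
      rw [V]
      rfl
  have hW : ∀ m, W (m + 2) = 64 ^ (m + 2) * R859.FL.w m := by
    intro m
    unfold W R859.FL.w
    have e1 : m + 2 - 1 = m + 1 := by omega
    have e2 : m + 2 + 1 = m + 3 := by omega
    rw [e1, e2, hV, hV, hV]
    have h64 : (64 : ℝ) ^ (m + 2) = 8 ^ (m + 2) * 8 ^ (m + 2) := by
      rw [← mul_pow]; norm_num
    rw [h64]
    ring
  intro k _ j _ n hn
  exact R859.FL.inf_log_convex' W 256 (R859.FL.pos_W W hW) j n (by omega)

end

end Pool.Agent.Results.MP_e3a7ef_co.InfinitelyLogConvex
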